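import Pool.Agent.PBC.All3

/-!
The convex bodies which are iterated projection bodies of every order are exactly the limits of
(linear images of) iterated projection bodies, uniformly.
-/

open Set Pool.Agent.ProjBody
open scoped Pointwise

namespace Pool.Agent.Results.MP_05927b_gt.Attractor

/-- Let `n ≥ 2`. (1) A convex body `K` in Euclidean `n`-space is an iterated projection body of
every order if and only if for every `m ≥ 1` and every `ε > 0` some linear image of an `m`-th
iterated projection body lies between `K` and `(1 + ε) K`. (2) For every `ε > 0` there is `m₀` such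
that for every `m ≥ m₀` every `m`-th iterated projection body has a linear image between `K` and
`(1 + ε) K` for some iterated projection body `K` of every order. -/
theorem result (n : ℕ) (hn : 2 ≤ n) :
    (∀ K : Set (E n), IsConvexBody K → (OfEveryOrder K ↔ ∀ (m : ℕ) (ε : ℝ), 1 ≤ m → 0 < ε →
      ∃ L L' : Set (E n), IsConvexBody L ∧ IsIteratedProjectionBody m L L' ∧
        ∃ T : E n ≃L[ℝ] E n, K ⊆ T '' L' ∧ T '' L' ⊆ (1 + ε) • K)) ∧
    ∀ ε : ℝ, 0 < ε → ∃ m₀ : ℕ, ∀ m, m₀ ≤ m → ∀ L L' : Set (E n), IsConvexBody L →
      IsIteratedProjectionBody m L L' → ∃ K : Set (E n), OfEveryOrder K ∧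
        ∃ T : E n ≃L[ℝ] E n, K ⊆ T '' L' ∧ T '' L' ⊆ (1 + ε) • K :=
  Pool.Agent.PBC.main3 n hn

end Pool.Agent.Results.MP_05927b_gt.Attractor
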