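import Pool.Agent.PBC.All

/-!
Continuum many smooth iterated projection bodies of every order, pairwise not linear images of each
other, at every Banach-Mazur distance `1 < r < √2` from the ball.
-/

open Set Pool.Agent.ProjBody

namespace Pool.Agent.Results.MP_05927b_gt.ContinuumMany

/-- A convex body is smooth: at most one outer unit normal vector at each point. -/
def IsSmooth {n : ℕ} (K : Set (E n)) : Prop :=
  ∀ x ∈ K, ∀ u v : E n, ‖u‖ = 1 → ‖v‖ = 1 → inner ℝ x u = supportFn K u → inner ℝ x v = supportFn K v → u = v

/-- Let `n ≥ 3` and `1 < r < √2`. There is a family `K c`, `c ∈ ℝ`, of smooth convex bodies in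
Euclidean `n`-space which are iterated projection bodies of every order, have Banach-Mazur distance
exactly `r` to the ball, and of which no two are images of each other under linear bijections. -/
theorem result (n : ℕ) (hn : 3 ≤ n) (r : ℝ) (h1 : 1 < r) (h2 : r < Real.sqrt 2) :
    ∃ K : ℝ → Set (E n),
      (∀ c, OfEveryOrder (K c) ∧ IsSmooth (K c) ∧ (∃ s, BallSandwich (K c) s) ∧
        distToBall (K c) = r) ∧
      ∀ c d, c ≠ d → ¬ ∃ T : E n ≃L[ℝ] E n, K c = T '' K d :=
  Pool.Agent.PBC.main n hn r h1 h2

end Pool.Agent.Results.MP_05927b_gt.ContinuumMany
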