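import Pool.Agent.PBC.All2

/-!
Smooth, indecomposable iterated projection bodies of every order with all symmetries of the cube
exist at every Banach-Mazur distance between that of the ball and that of the cube.
-/

open Set Pool.Agent.ProjBody

namespace Pool.Agent.Results.MP_05927b_gt.SmoothMembers

/-- A convex body is smooth: at most one outer unit normal vector at each point. -/
def IsSmooth {n : ℕ} (K : Set (E n)) : Prop :=
  ∀ x ∈ K, ∀ u v : E n, ‖u‖ = 1 → ‖v‖ = 1 → inner ℝ x u = supportFn K u → inner ℝ x v = supportFn K v → u = v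

/-- The symmetries of the cube `[-1, 1]^n`: the linear isometries which map every vector of the
standard basis to plus or minus a vector of the standard basis. -/
def CubeSym {n : ℕ} (g : E n ≃ₗᵢ[ℝ] E n) : Prop :=
  ∀ i : Fin n, ∃ j : Fin n, g (EuclideanSpace.single i 1) = EuclideanSpace.single j 1 ∨
    g (EuclideanSpace.single i 1) = -EuclideanSpace.single j 1

/-- For every `n ≥ 3` and every `r` in `[1, √n]` there is a convex body `K` in Euclidean `n`-space
that is an iterated projection body of every order, has all the symmetries of the cube and has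
Banach-Mazur distance exactly `r` to the ball; if `1 < r` it is not an ellipsoid, and if `r < √n` it
is smooth and not a direct sum. -/
theorem result (n : ℕ) (hn : 3 ≤ n) (r : ℝ) (h1 : 1 ≤ r) (h2 : r ≤ Real.sqrt n) :
    ∃ K : Set (E n), OfEveryOrder K ∧ (∃ s, BallSandwich K s) ∧ distToBall K = r ∧
      (∀ g : E n ≃ₗᵢ[ℝ] E n, CubeSym g → g '' K = K) ∧ (1 < r → ¬ IsEllipsoid K) ∧
      (r < Real.sqrt n → IsSmooth K ∧ ¬ IsDirectSum K) :=
  Pool.Agent.PBC.main2 n r hn h1 h2

end Pool.Agent.Results.MP_05927b_gt.SmoothMembers
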