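import Pool.Agent.PBX.All

/-!
The structure of the convex bodies which are iterated projection bodies of every order.
-/

open Set Pool.Agent.ProjBody

namespace Pool.Agent.Results.MP_05927b_gt.Structure

/-- A convex body is smooth: at most one outer unit normal vector at each point. -/
def IsSmooth {n : ℕ} (K : Set (E n)) : Prop :=
  ∀ x ∈ K, ∀ u v : E n, ‖u‖ = 1 → ‖v‖ = 1 → inner ℝ x u = supportFn K u → inner ℝ x v = supportFn K v → u = v

/-- Let `n ≥ 2`. A subset `K` of Euclidean `n`-space is a convex body which is an iterated projection body of every order if and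
only if it is the image, under a linear bijection, of a product of centred convex bodies `B j` of dimensions `d j ≥ 1`, where
those of dimension at least 3 are smooth and are themselves iterated projection bodies of every order. So the class
consists of the direct sums of centred segments, centred planar convex bodies and smooth members of the class. -/
theorem result (n : ℕ) (hn : 2 ≤ n) (K : Set (E n)) :
    OfEveryOrder K ↔
      ∃ (k : ℕ) (d : Fin k → ℕ) (B : ∀ j, Set (E (d j))) (T : (∀ j, E (d j)) ≃ₗ[ℝ] E n),
        (∀ j, 1 ≤ d j ∧ IsConvexBody (B j) ∧ (∀ x ∈ B j, -x ∈ B j) ∧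
          (3 ≤ d j → IsSmooth (B j) ∧ OfEveryOrder (B j))) ∧
        K = T '' Set.pi Set.univ B :=
  Pool.Agent.PBX.t_R1F n K hn

end Pool.Agent.Results.MP_05927b_gt.Structure
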